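import Mathlib
import Pool.Agent.Helper65.Wd

/-! Equidistribution, part A: compactness consequences of the absence of totally ramified values. -/

open Complex Metric Set Filter Topology InnerProductSpace MeasureTheory
open scoped ENNReal

namespace Pool.Agent.Helper56.Equi

open Pool.Agent.Helper65

/-- a direction far from given ones -/
lemma exists_far {d : ℕ} (η : Fin d → C2) (hη : ∀ i, ‖η i‖ = 1) :
    ∃ w : C2, ‖w‖ ≤ d + 1 ∧ ∀ i, 1 / (2 * d + 1 : ℝ) ≤ ‖wd w (η i)‖ := by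
  by_contra hcon
  push Not at hcon
  have h1 : ∀ j : Fin (d + 1), ∃ i, ‖wd ((1, (j : ℕ)) : C2) (η i)‖ < 1 / (2 * d + 1 : ℝ) := by
    intro j
    apply hcon
    rw [Prod.norm_def]
    apply max_le
    · simp
    · simp only [Complex.norm_natCast]
      have : ((j : ℕ) : ℝ) ≤ d := by exact_mod_cast Nat.lt_succ_iff.mp j.2
      linarith
  choose g hg using h1
  obtain ⟨j, j', hjj, hgg⟩ := Fintype.exists_ne_map_eq_of_card_lt g (by simp)
  have a1 := hg j
  have a2 := hg j'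
  rw [← hgg] at a2
  set e := η (g j) with he
  have hd1 : 1 ≤ d := by
    have := (g j).2
    omega
  have hdR : (1 : ℝ) ≤ d := by exact_mod_cast hd1
  set δ : ℝ := 1 / (2 * d + 1 : ℝ) with hδ
  have hδ0 : 0 < δ := by positivity
  simp only [wd, one_mul] at a1 a2
  have b1 : ‖e.1‖ < 2 * δ := by
    have h3 : ((j' : ℕ) - (j : ℕ) : ℂ) * e.1 = (e.2 - (j : ℕ) * e.1) - (e.2 - (j' : ℕ) * e.1) := by ring
    have h4 : ‖((j' : ℕ) - (j : ℕ) : ℂ) * e.1‖ < 2 * δ := by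
      rw [h3]
      calc _ ≤ ‖e.2 - (j : ℕ) * e.1‖ + ‖e.2 - (j' : ℕ) * e.1‖ := norm_sub_le _ _
        _ < δ + δ := add_lt_add a1 a2
        _ = 2 * δ := by ring
    rw [norm_mul] at h4
    have h5 : 1 ≤ ‖((j' : ℕ) - (j : ℕ) : ℂ)‖ := by
      have h6 : ((j' : ℕ) - (j : ℕ) : ℂ) = (((j' : ℕ) - (j : ℕ) : ℤ) : ℂ) := by push_cast; ring
      rw [h6, Complex.norm_intCast]
      have h7 : ((j' : ℕ) - (j : ℕ) : ℤ) ≠ 0 := by
        intro h
        apply hjj
        apply Fin.ext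
        omega
      exact_mod_cast Int.one_le_abs h7
    calc ‖e.1‖ = 1 * ‖e.1‖ := (one_mul _).symm
      _ ≤ ‖((j' : ℕ) - (j : ℕ) : ℂ)‖ * ‖e.1‖ := mul_le_mul_of_nonneg_right h5 (norm_nonneg _)
      _ < 2 * δ := h4
  have b2 : ‖e.2‖ < 1 := by
    have hj : ((j : ℕ) : ℝ) ≤ d := by exact_mod_cast Nat.lt_succ_iff.mp j.2
    have h3 : ‖e.2‖ ≤ ‖e.2 - (j : ℕ) * e.1‖ + ‖((j : ℕ) : ℂ) * e.1‖ := by
      have := norm_add_le (e.2 - (j : ℕ) * e.1) (((j : ℕ) : ℂ) * e.1)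
      rwa [sub_add_cancel] at this
    rw [norm_mul, Complex.norm_natCast] at h3
    have h4 : ((j : ℕ) : ℝ) * ‖e.1‖ ≤ d * (2 * δ) :=
      mul_le_mul hj b1.le (norm_nonneg _) (by positivity)
    have h5 : δ + d * (2 * δ) = 1 := by
      rw [hδ]; field_simp; ring
    linarith
  have b3 : ‖e.1‖ < 1 := by
    have : 2 * δ ≤ 1 := by
      rw [hδ, mul_one_div, div_le_one (by positivity)]
      linarith
    linarith
  have h7 := hη (g j)
  rw [← he, Prod.norm_def] at h7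
  have := max_lt b3 b2
  linarith

/-- factorisation data -/
def KK (d : ℕ) (f : C2 → C2) (Ξ : Set C2) : Set (C2 × ℂ × (Fin d → C2)) :=
  {p | p.1 ∈ Ξ ∧ ‖p.1‖ = 1 ∧ (∀ i, ‖p.2.2 i‖ = 1) ∧ ∀ w, wd (f w) p.1 = p.2.1 * ∏ i, wd w (p.2.2 i)}

lemma KK_bound {d : ℕ} {f : C2 → C2} (hf : IsLift d f) (Ξ : Set C2) :
    ∃ K0 : ℝ, 0 < K0 ∧ ∀ p ∈ KK d f Ξ, ‖p.2.1‖ ≤ K0 := by
  obtain ⟨m, M, hm, hM, hb⟩ := hf.bounds
  refine ⟨2 * (M * (d + 1) ^ d) * (2 * d + 1) ^ d, by positivity, ?_⟩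
  rintro ⟨ξ, κ, η⟩ ⟨hξ, hξ1, hη, hw⟩
  obtain ⟨w, hw1, hw2⟩ := exists_far η hη
  have h1 : ‖κ‖ * (1 / (2 * d + 1 : ℝ)) ^ d ≤ ‖wd (f w) ξ‖ := by
    have h2 := hw w
    simp only at h2
    rw [h2, norm_mul, norm_prod]
    apply mul_le_mul_of_nonneg_left _ (norm_nonneg _)
    calc (1 / (2 * d + 1 : ℝ)) ^ d = ∏ _i : Fin d, (1 / (2 * d + 1 : ℝ)) := by simp
      _ ≤ ∏ i, ‖wd w (η i)‖ := Finset.prod_le_prod (fun i _ => by positivity) (fun i _ => hw2 i)
  have h2 : ‖wd (f w) ξ‖ ≤ 2 * (M * (d + 1) ^ d) := by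
    refine (norm_wd_le _ _).trans ?_
    simp only at hξ1
    rw [hξ1, mul_one]
    apply mul_le_mul_of_nonneg_left _ (by norm_num)
    refine (hb w).2.trans ?_
    apply mul_le_mul_of_nonneg_left _ hM.le
    exact pow_le_pow_left₀ (norm_nonneg _) hw1 d
  have h3 := h1.trans h2
  rw [one_div, inv_pow, ← div_eq_mul_inv, div_le_iff₀ (by positivity)] at h3
  exact h3

lemma continuous_wd_left (v : C2) : Continuous (fun x => wd v x) := by
  unfold wd
  fun_prop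

lemma KK_isCompact {d : ℕ} {f : C2 → C2} (hf : IsLift d f) {Ξ : Set C2} (hΞ : IsClosed Ξ) :
    IsCompact (KK d f Ξ) := by
  obtain ⟨K0, hK0, hb⟩ := KK_bound hf Ξ
  have hK : IsCompact (closedBall (0 : C2) 1 ×ˢ (closedBall (0 : ℂ) K0 ×ˢ
      (Set.univ.pi (fun _ : Fin d => closedBall (0 : C2) 1)))) :=
    (isCompact_closedBall _ _).prod ((isCompact_closedBall _ _).prod
      (isCompact_univ_pi fun _ => isCompact_closedBall _ _))
  apply hK.of_isClosed_subset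
  · have e : KK d f Ξ = {p | p.1 ∈ Ξ} ∩ ({p | ‖p.1‖ = 1} ∩ ((⋂ i, {p | ‖p.2.2 i‖ = 1}) ∩
        ⋂ w, {p | wd (f w) p.1 = p.2.1 * ∏ i, wd w (p.2.2 i)})) := by
      ext p
      simp only [KK, mem_inter_iff, mem_iInter, Set.mem_ofPred_eq]
    rw [e]
    refine IsClosed.inter (hΞ.preimage continuous_fst) (IsClosed.inter ?_ (IsClosed.inter ?_ ?_))
    · exact isClosed_eq (by fun_prop) continuous_const
    · exact isClosed_iInter fun i => isClosed_eq (by fun_prop) continuous_const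
    · refine isClosed_iInter fun w => isClosed_eq ((continuous_wd_left _).comp continuous_fst) ?_
      refine (by fun_prop : Continuous fun p : C2 × ℂ × (Fin d → C2) => p.2.1).mul ?_
      refine continuous_finsetProd _ fun i _ => (continuous_wd_left w).comp (by fun_prop)
  · rintro ⟨ξ, κ, η⟩ hp
    refine ⟨?_, ?_, ?_⟩
    · rw [mem_closedBall, dist_zero_right]; exact hp.2.1.le
    · rw [mem_closedBall, dist_zero_right]; exact hb _ hp
    · intro i _
      rw [mem_closedBall, dist_zero_right]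
      exact (hp.2.2.1 i).le

lemma fac_nonzero {d : ℕ} {f : C2 → C2} (hf : IsLift d f) {ξ : C2} (hξ : ξ ≠ 0) :
    ∃ w, wd (f w) ξ ≠ 0 := by
  obtain ⟨κ, η, hκ, hη, h⟩ := hf.fac ξ hξ
  obtain ⟨w, -, hw⟩ := exists_far η hη
  refine ⟨w, ?_⟩
  rw [h]
  apply mul_ne_zero hκ
  apply Finset.prod_ne_zero_iff.2
  intro i _
  rw [← norm_ne_zero_iff]
  have := hw i
  have h2 : 0 < 1 / (2 * d + 1 : ℝ) := by positivity
  linarith

/-- lower bounds -/
lemma exists_lower {d : ℕ} (hd : 1 ≤ d) {f : C2 → C2} (hf : IsLift d f) {Ξ : Set C2}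
    (hΞ : IsClosed Ξ) (hN : NTR d f Ξ) :
    ∃ c : ℝ, 0 < c ∧ c ≤ 1 ∧ ∀ p ∈ KK d f Ξ, ∀ v : C2, ‖v‖ = 1 → c ≤ ‖p.2.1‖ ∧ ∃ i, c ≤ ‖wd v (p.2.2 i)‖ := by
  obtain ⟨K0, hK0, hb⟩ := KK_bound hf Ξ
  have hdR : (1 : ℝ) ≤ d := by exact_mod_cast hd
  by_cases hne : (KK d f Ξ ×ˢ sphere (0 : C2) 1).Nonempty
  · have hK : IsCompact (KK d f Ξ ×ˢ sphere (0 : C2) 1) := (KK_isCompact hf hΞ).prod (isCompact_sphere _ _)
    have hcont : Continuous (fun q : (C2 × ℂ × (Fin d → C2)) × C2 => ‖q.1.2.1‖ * ∑ i, ‖wd q.2 (q.1.2.2 i)‖) := by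
      unfold wd
      fun_prop
    obtain ⟨q0, hq0, hmin⟩ := hK.exists_isMinOn hne hcont.continuousOn
    set m := ‖q0.1.2.1‖ * ∑ i, ‖wd q0.2 (q0.1.2.2 i)‖ with hm
    have hm0 : 0 < m := by
      rcases eq_or_lt_of_le (show 0 ≤ m by positivity) with h0 | h0
      · exfalso
        obtain ⟨⟨ξ, κ, η⟩, v⟩ := q0
        obtain ⟨⟨hξ, hξ1, hη, hw⟩, hv⟩ := hq0
        simp only at hm hξ hξ1 hη hw hv
        have hξ0 : ξ ≠ 0 := by
          intro h
          rw [h, norm_zero] at hξ1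
          exact zero_ne_one hξ1
        have hv1 : ‖v‖ = 1 := by simpa using hv
        have hv0 : v ≠ 0 := by
          intro h
          rw [h, norm_zero] at hv1
          exact zero_ne_one hv1
        rw [hm] at h0
        rcases mul_eq_zero.mp h0.symm with h1 | h1
        · obtain ⟨w, hw'⟩ := fac_nonzero hf hξ0
          apply hw'
          rw [hw, norm_eq_zero.mp h1, zero_mul]
        · have h2 : ∀ i, wd v (η i) = 0 := by
            intro i
            have := (Finset.sum_eq_zero_iff_of_nonneg (fun i _ => norm_nonneg _)).mp h1 i (Finset.mem_univ i)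
            exact norm_eq_zero.mp this
          have h3 : ∀ i, ∃ t : ℂ, η i = t • v := fun i => (par_iff hv0).mp (wd_eq_zero_comm.mp (h2 i))
          choose t ht using h3
          apply hN ξ hξ hξ0
          refine ⟨κ * ∏ i, t i, v, fun w => ?_⟩
          rw [hw]
          have h4 : ∀ i, wd w (η i) = t i * wd w v := by
            intro i
            rw [ht i, wd_smul_right]
          rw [Finset.prod_congr rfl (fun i _ => h4 i), Finset.prod_mul_distrib]
          simp [mul_assoc]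
      · exact h0
    refine ⟨min 1 (min (m / (2 * d)) (m / (K0 * d))), by positivity, min_le_left _ _, ?_⟩
    intro p hp v hv
    have hq : (p, v) ∈ KK d f Ξ ×ˢ sphere (0 : C2) 1 := ⟨hp, by simpa using hv⟩
    have h1 : m ≤ ‖p.2.1‖ * ∑ i, ‖wd v (p.2.2 i)‖ := hmin hq
    have hle2 : ∀ i, ‖wd v (p.2.2 i)‖ ≤ 2 := by
      intro i
      have := norm_wd_le v (p.2.2 i)
      rw [hv, hp.2.2.1 i] at this
      linarith
    constructor
    · refine (min_le_right _ _).trans ((min_le_left _ _).trans ?_)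
      rw [div_le_iff₀ (by positivity)]
      refine h1.trans (mul_le_mul_of_nonneg_left ?_ (norm_nonneg _))
      calc ∑ i, ‖wd v (p.2.2 i)‖ ≤ ∑ _i : Fin d, (2 : ℝ) := Finset.sum_le_sum fun i _ => hle2 i
        _ = 2 * d := by simp; ring
    · by_contra hcon
      push Not at hcon
      have h2 : ∑ i, ‖wd v (p.2.2 i)‖ < ∑ _i : Fin d, m / (K0 * d) := by
        apply Finset.sum_lt_sum_of_nonempty
        · have : Nonempty (Fin d) := ⟨⟨0, hd⟩⟩
          exact Finset.univ_nonempty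
        · intro i _
          exact lt_of_lt_of_le (hcon i) ((min_le_right _ _).trans (min_le_right _ _))
      have h3 : ∑ _i : Fin d, m / (K0 * d) = m / K0 := by
        rw [Finset.sum_const, Finset.card_univ, Fintype.card_fin, nsmul_eq_mul]
        field_simp
      rw [h3] at h2
      have h4 : ‖p.2.1‖ * ∑ i, ‖wd v (p.2.2 i)‖ ≤ K0 * ∑ i, ‖wd v (p.2.2 i)‖ :=
        mul_le_mul_of_nonneg_right (hb p hp) (Finset.sum_nonneg fun i _ => norm_nonneg _)
      have h5 : K0 * ∑ i, ‖wd v (p.2.2 i)‖ < K0 * (m / K0) := mul_lt_mul_of_pos_left h2 hK0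
      rw [mul_div_cancel₀ _ hK0.ne'] at h5
      linarith
  · refine ⟨1, one_pos, le_rfl, fun p hp v hv => ?_⟩
    exact absurd ⟨(p, v), hp, by simpa using hv⟩ hne

end Pool.Agent.Helper56.Equi
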