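import Mathlib
import Pool.Agent.Helper56.Equi.A

/-! Equidistribution, part B: pointwise inequality and recursion for the moments. -/

open Complex Metric Set Filter Topology InnerProductSpace MeasureTheory
open scoped ENNReal

namespace Pool.Agent.Helper56.Equi

open Pool.Agent.Helper65

/-- power of the inverse of the chordal distance -/
noncomputable def ee (v η : C2) (s : ℝ) : ℝ≥0∞ := ((ENNReal.ofReal (‖wd v η‖ / ‖v‖)) ^ s)⁻¹

lemma exists_delta {d : ℕ} (hd : 1 ≤ d) {f : C2 → C2} (hf : IsLift d f) {Ξ : Set C2}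
    (hΞ : IsClosed Ξ) (hN : NTR d f Ξ) :
    ∃ δ : ℝ, 0 < δ ∧ δ ≤ 1 ∧ ∀ p ∈ KK d f Ξ, ∀ v : C2, v ≠ 0 →
      ∃ i0, δ * (‖wd v (p.2.2 i0)‖ / ‖v‖) ^ (d - 1) ≤ ‖wd (f v) p.1‖ / ‖f v‖ := by
  obtain ⟨c, hc, hc1, hlow⟩ := exists_lower hd hf hΞ hN
  obtain ⟨m, M, hm, hM, hb⟩ := hf.bounds
  refine ⟨min 1 (c / M * c), by positivity, min_le_left _ _, ?_⟩
  intro p hp v hv
  have hv0 : 0 < ‖v‖ := norm_pos_iff.mpr hv
  have hne : Nonempty (Fin d) := ⟨⟨0, hd⟩⟩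
  set a : Fin d → ℝ := fun i => ‖wd v (p.2.2 i)‖ / ‖v‖ with ha
  have ha0 : ∀ i, 0 ≤ a i := fun i => by positivity
  obtain ⟨i0, hi0⟩ := Finite.exists_min a
  refine ⟨i0, ?_⟩
  -- the unit vector
  set u : C2 := ((‖v‖ : ℂ)⁻¹) • v with hu
  have hu1 : ‖u‖ = 1 := by
    rw [hu, norm_smul, norm_inv, Complex.norm_real, norm_norm, inv_mul_cancel₀ hv0.ne']
  obtain ⟨hκ, i1, hi1⟩ := hlow p hp u hu1
  have hi1' : c ≤ a i1 := by
    have : ‖wd u (p.2.2 i1)‖ = a i1 := by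
      rw [hu, wd_smul_left, norm_mul, norm_inv, Complex.norm_real, norm_norm, inv_mul_eq_div]
    rw [← this]
    exact hi1
  -- product bound
  have hprod : c * a i0 ^ (d - 1) ≤ ∏ i, a i := by
    rw [← Finset.mul_prod_erase Finset.univ a (Finset.mem_univ i1)]
    apply mul_le_mul hi1' _ (pow_nonneg (ha0 i0) _) (ha0 i1)
    calc a i0 ^ (d - 1) = ∏ _i ∈ Finset.univ.erase i1, a i0 := by
          rw [Finset.prod_const, Finset.card_erase_of_mem (Finset.mem_univ i1), Finset.card_univ,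
            Fintype.card_fin]
      _ ≤ ∏ i ∈ Finset.univ.erase i1, a i := Finset.prod_le_prod (fun i _ => ha0 i0) (fun i _ => hi0 i)
  have hfv : 0 < ‖f v‖ := norm_pos_iff.mpr (hf.nz v hv)
  have e1 : ‖wd (f v) p.1‖ = ‖p.2.1‖ * ((∏ i, a i) * ‖v‖ ^ d) := by
    rw [hp.2.2.2 v, norm_mul, norm_prod]
    congr 1
    simp only [ha]
    rw [Finset.prod_div_distrib, Finset.prod_const, Finset.card_univ, Fintype.card_fin,
      div_mul_cancel₀ _ (pow_ne_zero _ hv0.ne')]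
  have hP0 : 0 ≤ ∏ i, a i := Finset.prod_nonneg fun i _ => ha0 i
  have h3 : ‖f v‖ ≤ M * ‖v‖ ^ d := (hb v).2
  have hA0 : 0 ≤ a i0 ^ (d - 1) := pow_nonneg (ha0 i0) _
  show min 1 (c / M * c) * a i0 ^ (d - 1) ≤ _
  rw [e1]
  generalize ∏ i, a i = P at hprod hP0
  generalize a i0 ^ (d - 1) = A at hprod hA0
  generalize ‖v‖ ^ d = V at h3
  generalize ‖p.2.1‖ = κ at hκ
  generalize ‖f v‖ = F at h3 hfv
  have hV : 0 ≤ M * V := hfv.le.trans h3
  have hV' : 0 ≤ V := by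
    by_contra hcon
    push Not at hcon
    nlinarith
  have h2 : c / M * P ≤ κ * (P * V) / F := by
    rw [le_div_iff₀ hfv]
    calc c / M * P * F ≤ c / M * P * (M * V) := mul_le_mul_of_nonneg_left h3 (by positivity)
      _ = c * (P * V) := by field_simp
      _ ≤ κ * (P * V) := mul_le_mul_of_nonneg_right hκ (by positivity)
  calc min 1 (c / M * c) * A ≤ (c / M * c) * A :=
        mul_le_mul_of_nonneg_right (min_le_right _ _) hA0
    _ = c / M * (c * A) := by ring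
    _ ≤ c / M * P := mul_le_mul_of_nonneg_left hprod (by positivity)
    _ ≤ _ := h2

lemma ee_rec {d : ℕ} (hd : 1 ≤ d) {f : C2 → C2} (hf : IsLift d f) {Ξ : Set C2}
    (hΞ : IsClosed Ξ) (hN : NTR d f Ξ) :
    ∃ δ : ℝ, 0 < δ ∧ δ ≤ 1 ∧ ∀ p ∈ KK d f Ξ, ∀ v : C2, v ≠ 0 → ∀ s : ℝ, 0 ≤ s →
      ee (f v) p.1 s ≤ ((ENNReal.ofReal δ) ^ s)⁻¹ * ∑ i, ee v (p.2.2 i) ((d - 1 : ℕ) * s) := by
  obtain ⟨δ, hδ, hδ1, h⟩ := exists_delta hd hf hΞ hN
  refine ⟨δ, hδ, hδ1, fun p hp v hv s hs => ?_⟩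
  obtain ⟨i0, hi0⟩ := h p hp v hv
  set a : ℝ := ‖wd v (p.2.2 i0)‖ / ‖v‖ with ha
  have ha0 : 0 ≤ a := by positivity
  have hδe : ENNReal.ofReal δ ≠ 0 := by
    rw [ne_eq, ENNReal.ofReal_eq_zero, not_le]; exact hδ
  have h1 : ee (f v) p.1 s ≤ ((ENNReal.ofReal (δ * a ^ (d - 1))) ^ s)⁻¹ := by
    unfold ee
    rw [ENNReal.inv_le_inv]
    exact ENNReal.rpow_le_rpow (ENNReal.ofReal_le_ofReal hi0) hs
  have h2 : ((ENNReal.ofReal (δ * a ^ (d - 1))) ^ s)⁻¹ =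
      ((ENNReal.ofReal δ) ^ s)⁻¹ * ee v (p.2.2 i0) ((d - 1 : ℕ) * s) := by
    rw [ENNReal.ofReal_mul hδ.le, ENNReal.mul_rpow_of_nonneg _ _ hs, ENNReal.mul_inv]
    · congr 1
      unfold ee
      rw [ENNReal.rpow_mul, ENNReal.rpow_natCast, ENNReal.ofReal_pow ha0]
    · left
      exact (ENNReal.rpow_pos (pos_iff_ne_zero.mpr hδe) ENNReal.ofReal_ne_top).ne'
    · left
      exact ENNReal.rpow_ne_top_of_nonneg hs ENNReal.ofReal_ne_top
  rw [h2] at h1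
  refine h1.trans ?_
  gcongr
  exact Finset.single_le_sum (f := fun i => ee v (p.2.2 i) ((d - 1 : ℕ) * s)) (fun i _ => zero_le)
    (Finset.mem_univ i0)

lemma measurable_ee {f : ℂ → C2} (hf : Continuous f) (η : C2) (s : ℝ) :
    Measurable (fun z => ee (f z) η s) := by
  unfold ee
  apply Measurable.inv
  apply Measurable.pow_const
  apply ENNReal.measurable_ofReal.comp
  apply Measurable.div
  · apply Continuous.measurable
    unfold wd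
    fun_prop
  · exact hf.norm.measurable

lemma exists_KK {d : ℕ} {f : C2 → C2} (hf : IsLift d f) {Ξ : Set C2} (hΞ : BackInv f Ξ) {ξ : C2}
    (hξ : ξ ∈ Ξ) (hξ1 : ‖ξ‖ = 1) : ∃ p ∈ KK d f Ξ, p.1 = ξ ∧ ∀ i, p.2.2 i ∈ Ξ ∧ ‖p.2.2 i‖ = 1 := by
  have hξ0 : ξ ≠ 0 := by
    intro h
    rw [h, norm_zero] at hξ1
    exact zero_ne_one hξ1
  obtain ⟨κ, η, hκ, hη, h⟩ := hf.fac ξ hξ0
  refine ⟨(ξ, κ, η), ⟨hξ, hξ1, hη, h⟩, rfl, fun i => ⟨?_, hη i⟩⟩
  apply hΞ.back (η i) ξ _ hξ hξ0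
  · rw [h]
    apply mul_eq_zero_of_right
    apply Finset.prod_eq_zero (Finset.mem_univ i)
    exact wd_self _
  · intro h0
    have := hη i
    rw [h0, norm_zero] at this
    exact zero_ne_one this

/-- recursion for the moments -/
lemma moments {d : ℕ} (hd : 2 ≤ d) {f : C2 → C2} (hf : IsLift d f) {Ξ : Set C2}
    (hΞ : BackInv f Ξ) (hN : NTR d f Ξ) : ∃ K : ℝ, 1 ≤ K ∧ ∀ (S : Set ℂ) (C0 : ℝ≥0∞),
      (∀ η : C2, ‖η‖ = 1 → ∫⁻ z in S, ee (z, 1) η 1 ≤ C0) →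
      ∀ n : ℕ, ∀ ξ ∈ Ξ, ‖ξ‖ = 1 →
        ∫⁻ z in S, ee (f^[n] (z, 1)) ξ (1 / ((d - 1 : ℕ) : ℝ) ^ n) ≤ ENNReal.ofReal (K ^ n) * C0 := by
  obtain ⟨δ, hδ, hδ1, hrec⟩ := ee_rec (by omega) hf hΞ.closed hN
  have hdR : (1 : ℝ) ≤ ((d - 1 : ℕ) : ℝ) := by
    have : 1 ≤ d - 1 := by omega
    exact_mod_cast this
  have hdR2 : (1 : ℝ) ≤ d := by
    have : 1 ≤ d := by omega
    exact_mod_cast this
  refine ⟨d / δ, by rw [le_div_iff₀ hδ]; linarith, fun S C0 hC0 n => ?_⟩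
  induction n with
  | zero =>
    intro ξ hξ hξ1
    simp only [Function.iterate_zero, id_eq, pow_zero, div_one, ENNReal.ofReal_one, one_mul]
    exact hC0 ξ hξ1
  | succ n ih =>
    intro ξ hξ hξ1
    obtain ⟨p, hp, hpξ, hpi⟩ := exists_KK hf hΞ hξ hξ1
    set s : ℝ := 1 / ((d - 1 : ℕ) : ℝ) ^ (n + 1) with hs
    have hs0 : 0 ≤ s := by positivity
    have hs1 : s ≤ 1 := by
      rw [hs, div_le_one (by positivity)]
      exact one_le_pow₀ hdR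
    have hs2 : ((d - 1 : ℕ) : ℝ) * s = 1 / ((d - 1 : ℕ) : ℝ) ^ n := by
      rw [hs, pow_succ]
      field_simp
    have hfc : ∀ n : ℕ, Continuous (fun z : ℂ => f^[n] (z, 1)) := fun n =>
      (hf.diff.continuous.iterate n).comp (by fun_prop)
    have h1 : ∀ z : ℂ, ee (f^[n + 1] (z, 1)) ξ s ≤
        (ENNReal.ofReal δ)⁻¹ * ∑ i, ee (f^[n] (z, 1)) (p.2.2 i) (1 / ((d - 1 : ℕ) : ℝ) ^ n) := by
      intro z
      rw [Function.iterate_succ_apply', ← hpξ]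
      refine (hrec p hp _ (iterate_nz hf.nz n _ (pt_ne_zero z)) s hs0).trans ?_
      rw [hs2]
      apply mul_le_mul_left
      rw [ENNReal.inv_le_inv]
      calc ENNReal.ofReal δ = ENNReal.ofReal δ ^ (1 : ℝ) := (ENNReal.rpow_one _).symm
        _ ≤ ENNReal.ofReal δ ^ s := by
          apply ENNReal.rpow_le_rpow_of_exponent_ge _ hs1
          rw [← ENNReal.ofReal_one]
          exact ENNReal.ofReal_le_ofReal hδ1
    calc ∫⁻ z in S, ee (f^[n + 1] (z, 1)) ξ s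
        ≤ ∫⁻ z in S, (ENNReal.ofReal δ)⁻¹ *
            ∑ i, ee (f^[n] (z, 1)) (p.2.2 i) (1 / ((d - 1 : ℕ) : ℝ) ^ n) := lintegral_mono fun z => h1 z
      _ = (ENNReal.ofReal δ)⁻¹ * ∑ i, ∫⁻ z in S,
            ee (f^[n] (z, 1)) (p.2.2 i) (1 / ((d - 1 : ℕ) : ℝ) ^ n) := by
          rw [lintegral_const_mul _ (Finset.measurable_fun_sum _ fun i _ => measurable_ee (hfc n) _ _),
            lintegral_finsetSum _ fun i _ => measurable_ee (hfc n) _ _]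
      _ ≤ (ENNReal.ofReal δ)⁻¹ * ∑ _i : Fin d, ENNReal.ofReal ((d / δ) ^ n) * C0 := by
          apply mul_le_mul_right
          exact Finset.sum_le_sum fun i _ => ih _ (hpi i).1 (hpi i).2
      _ = ENNReal.ofReal ((d / δ) ^ (n + 1)) * C0 := by
          rw [Finset.sum_const, Finset.card_univ, Fintype.card_fin, nsmul_eq_mul, pow_succ,
            ENNReal.ofReal_mul (by positivity), ENNReal.ofReal_div_of_pos hδ, ENNReal.ofReal_natCast,
            ENNReal.div_eq_inv_mul]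
          ring

end Pool.Agent.Helper56.Equi
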