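import Mathlib
import Pool.Agent.Helper56.Equi.B
import Pool.Agent.Helper56.Harm.L1

/-! Equidistribution, part C: logarithmic estimate and integrability. -/

open Complex Metric Set Filter Topology InnerProductSpace MeasureTheory
open scoped ENNReal

namespace Pool.Agent.Helper56.Equi

open Pool.Agent.Helper65

/-- real logarithmic bound -/
lemma log_bound {D s M : ℝ} (hD : 0 < D) (hD2 : D ≤ 2) (hs : 0 < s) (hM : 1 ≤ M) :
    |Real.log D| ≤ Real.log 2 + (1 / s) * (Real.log M + (D ^ s)⁻¹ / M) := by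
  have hM0 : 0 < M := by linarith
  have hy : 0 < (D ^ s)⁻¹ := inv_pos.mpr (Real.rpow_pos_of_pos hD s)
  have hlogM : 0 ≤ Real.log M := Real.log_nonneg hM
  have hl2 : 0 < Real.log 2 := Real.log_pos (by norm_num)
  have h1 : Real.log ((D ^ s)⁻¹) ≤ Real.log M + (D ^ s)⁻¹ / M := by
    have h2 := Real.log_le_sub_one_of_pos (show 0 < (D ^ s)⁻¹ / M by positivity)
    rw [Real.log_div hy.ne' hM0.ne'] at h2
    linarith
  have h3 : -Real.log D = (1 / s) * Real.log ((D ^ s)⁻¹) := by
    rw [Real.log_inv, Real.log_rpow hD]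
    field_simp
  rw [abs_le']
  constructor
  · have h4 : Real.log D ≤ Real.log 2 := Real.log_le_log hD hD2
    have h5 : 0 ≤ (1 / s) * (Real.log M + (D ^ s)⁻¹ / M) := by positivity
    linarith
  · rw [h3]
    have h5 : (1 / s) * Real.log ((D ^ s)⁻¹) ≤ (1 / s) * (Real.log M + (D ^ s)⁻¹ / M) :=
      mul_le_mul_of_nonneg_left h1 (by positivity)
    linarith

/-- pointwise bound -/
lemma point_bound {v ξ : C2} (hv : v ≠ 0) (hξ : ‖ξ‖ = 1) {s M N C g : ℝ} (hs : 0 < s) (hM : 1 ≤ M)
    (hN : 0 < N) (hC : 0 ≤ C) (hg : |g - 1 / N * Real.log ‖v‖| ≤ C / N) :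
    ENNReal.ofReal |g - 1 / N * Real.log ‖wd v ξ‖| ≤
      ENNReal.ofReal ((C + Real.log 2 + (1 / s) * Real.log M) / N) +
        ENNReal.ofReal (1 / (N * s * M)) * ee v ξ s := by
  have hv0 : 0 < ‖v‖ := norm_pos_iff.mpr hv
  have hM0 : 0 < M := by linarith
  by_cases h0 : wd v ξ = 0
  · have h1 : ee v ξ s = ⊤ := by
      unfold ee
      rw [h0, norm_zero, zero_div, ENNReal.ofReal_zero, ENNReal.zero_rpow_of_pos hs, ENNReal.inv_zero]
    rw [h1, ENNReal.mul_top, add_top]
    · exact le_top
    · rw [ne_eq, ENNReal.ofReal_eq_zero, not_le]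
      positivity
  · have hw : 0 < ‖wd v ξ‖ := norm_pos_iff.mpr h0
    set D := ‖wd v ξ‖ / ‖v‖ with hD
    have hD0 : 0 < D := by positivity
    have hD2 : D ≤ 2 := by
      rw [hD, div_le_iff₀ hv0]
      have := norm_wd_le v ξ
      rw [hξ] at this
      linarith
    have h1 := log_bound hD0 hD2 hs hM
    have h2 : Real.log ‖wd v ξ‖ = Real.log D + Real.log ‖v‖ := by
      rw [hD, Real.log_div hw.ne' hv0.ne']
      ring
    have h3 : ee v ξ s = ENNReal.ofReal ((D ^ s)⁻¹) := by
      unfold ee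
      rw [← hD, ENNReal.ofReal_rpow_of_pos hD0, ENNReal.ofReal_inv_of_pos (Real.rpow_pos_of_pos hD0 s)]
    rw [h3, ← ENNReal.ofReal_mul (by positivity), ← ENNReal.ofReal_add]
    · apply ENNReal.ofReal_le_ofReal
      rw [h2]
      have h4 : g - 1 / N * (Real.log D + Real.log ‖v‖) =
          (g - 1 / N * Real.log ‖v‖) - 1 / N * Real.log D := by ring
      rw [h4]
      have h5 : |1 / N * Real.log D| ≤ 1 / N * (Real.log 2 + (1 / s) * (Real.log M + (D ^ s)⁻¹ / M)) := by
        rw [abs_mul, abs_of_pos (by positivity : 0 < 1 / N)]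
        exact mul_le_mul_of_nonneg_left h1 (by positivity)
      have h6 : 1 / N * (Real.log 2 + (1 / s) * (Real.log M + (D ^ s)⁻¹ / M)) + C / N =
          (C + Real.log 2 + (1 / s) * Real.log M) / N + 1 / (N * s * M) * (D ^ s)⁻¹ := by
        field_simp
        ring
      calc |(g - 1 / N * Real.log ‖v‖) - 1 / N * Real.log D|
          ≤ |g - 1 / N * Real.log ‖v‖| + |1 / N * Real.log D| := abs_sub _ _
        _ ≤ _ := by linarith
    · have : 0 ≤ Real.log 2 := Real.log_nonneg (by norm_num)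
      have : 0 ≤ Real.log M := Real.log_nonneg hM
      positivity
    · have : 0 < D ^ s := Real.rpow_pos_of_pos hD0 s
      positivity

/-- `∫ 1/|z - a|` over the unit disc around `a`. -/
lemma lintegral_inv_ball (a : ℂ) : ∫⁻ z in ball a 1, (ENNReal.ofReal ‖z - a‖)⁻¹ ≤
    ENNReal.ofReal (2 * Real.pi) := by
  have h1 : ∫⁻ z in ball a 1, (ENNReal.ofReal ‖z - a‖)⁻¹ =
      ∫⁻ z, (ball (0 : ℂ) 1).indicator (fun z => (ENNReal.ofReal ‖z‖)⁻¹) z := by
    rw [← lintegral_indicator measurableSet_ball, ← lintegral_add_right_eq_self _ a]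
    apply lintegral_congr
    intro z
    by_cases hz : z ∈ ball (0 : ℂ) 1
    · rw [indicator_of_mem hz, indicator_of_mem, add_sub_cancel_right]
      rw [mem_ball, dist_eq_norm, add_sub_cancel_right]
      rwa [mem_ball, dist_zero_right] at hz
    · rw [indicator_of_notMem hz, indicator_of_notMem]
      rw [mem_ball, dist_eq_norm, add_sub_cancel_right]
      rwa [mem_ball, dist_zero_right] at hz
  rw [h1, ← Complex.lintegral_comp_polarCoord_symm, polarCoord_target]
  calc ∫⁻ p in Ioi (0 : ℝ) ×ˢ Ioo (-Real.pi) Real.pi, ENNReal.ofReal p.1 •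
        (ball (0 : ℂ) 1).indicator (fun z => (ENNReal.ofReal ‖z‖)⁻¹) (Complex.polarCoord.symm p)
      ≤ ∫⁻ p in Ioi (0 : ℝ) ×ˢ Ioo (-Real.pi) Real.pi,
        (Iio (1 : ℝ) ×ˢ univ).indicator (fun _ => (1 : ℝ≥0∞)) p := by
        apply setLIntegral_mono' (measurableSet_Ioi.prod measurableSet_Ioo)
        intro p hp
        have hp1 : 0 < p.1 := hp.1
        have hn : ‖Complex.polarCoord.symm p‖ = p.1 := by
          rw [Complex.norm_polarCoord_symm, abs_of_pos hp1]
        by_cases hpr : p.1 < 1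
        · rw [indicator_of_mem (show Complex.polarCoord.symm p ∈ ball (0 : ℂ) 1 by
            rw [mem_ball, dist_zero_right, hn]; exact hpr),
            indicator_of_mem (show p ∈ Iio (1 : ℝ) ×ˢ univ from ⟨hpr, mem_univ _⟩), hn, smul_eq_mul]
          exact ENNReal.mul_inv_le_one _
        · rw [indicator_of_notMem (show Complex.polarCoord.symm p ∉ ball (0 : ℂ) 1 by
            rw [mem_ball, dist_zero_right, hn]; exact hpr), smul_zero]
          exact zero_le
    _ = volume ((Ioi (0 : ℝ) ×ˢ Ioo (-Real.pi) Real.pi) ∩ (Iio (1 : ℝ) ×ˢ univ)) := by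
        rw [lintegral_indicator (measurableSet_Iio.prod MeasurableSet.univ), setLIntegral_one,
          Measure.restrict_apply (measurableSet_Iio.prod MeasurableSet.univ), inter_comm]
    _ = ENNReal.ofReal (2 * Real.pi) := by
        rw [Set.prod_inter_prod, Set.Ioi_inter_Iio, inter_univ, Measure.volume_eq_prod,
          Measure.prod_prod, Real.volume_Ioo, Real.volume_Ioo, sub_zero, ENNReal.ofReal_one, one_mul]
        congr 1
        ring

/-- finiteness of the initial moment -/
lemma initial_moment (R : ℝ) : ∃ C0 : ℝ, 1 ≤ C0 ∧ ∀ η : C2, ‖η‖ = 1 →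
    ∫⁻ z in ball (0 : ℂ) R, ee (z, 1) η 1 ≤ ENNReal.ofReal C0 := by
  set R' : ℝ := |R| + 1 with hR'
  have hR'1 : 1 ≤ R' := by rw [hR']; linarith [abs_nonneg R]
  have hR'0 : 0 < R' := by linarith
  set A : ℝ := Real.pi * R' ^ 2 with hA
  have hA0 : 0 < A := by positivity
  have hvol : volume (ball (0 : ℂ) R) ≤ ENNReal.ofReal A := by
    have h1 : volume (ball (0 : ℂ) R) ≤ volume (ball (0 : ℂ) R') :=
      measure_mono (ball_subset_ball (by rw [hR']; linarith [le_abs_self R]))
    refine h1.trans ?_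
    rw [Complex.volume_ball, hA, mul_comm Real.pi, ENNReal.ofReal_mul (by positivity),
      ENNReal.ofReal_pow hR'0.le]
    gcongr
    rw [← NNReal.coe_real_pi, ENNReal.ofReal_coe_nnreal]
  -- points of the disc
  have hz : ∀ z ∈ ball (0 : ℂ) R, ‖z‖ ≤ R' := by
    intro z hz
    rw [mem_ball, dist_zero_right] at hz
    rw [hR']
    linarith [le_abs_self R]
  have hpt : ∀ z ∈ ball (0 : ℂ) R, ‖((z, 1) : C2)‖ ≤ R' := by
    intro z hz'
    rw [Prod.norm_def]
    apply max_le (hz z hz')
    simpa using hR'1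
  refine ⟨1 + R' * (2 * A) + R' * (2 * R' * (A + 2 * Real.pi)), by
    have : 0 ≤ R' * (2 * A) := by positivity
    have : 0 ≤ R' * (2 * R' * (A + 2 * Real.pi)) := by positivity
    linarith, fun η hη => ?_⟩
  have hpos : ∀ z : ℂ, 0 < ‖((z, 1) : C2)‖ := fun z => norm_pos_iff.mpr (pt_ne_zero z)
  by_cases h2 : ‖η.2‖ ≤ 1 / (2 * R')
  · -- η close to the horizontal direction
    have h1 : ‖η.1‖ = 1 := by
      rw [Prod.norm_def] at hη
      rcases max_choice ‖η.1‖ ‖η.2‖ with h | h
      · rw [← h]; exact hη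
      · exfalso
        rw [h] at hη
        rw [hη, le_div_iff₀ (by positivity)] at h2
        linarith
    have hb : ∀ z ∈ ball (0 : ℂ) R, ee (z, 1) η 1 ≤ ENNReal.ofReal (R' * 2) := by
      intro z hz'
      have h3 : 1 / 2 ≤ ‖wd ((z, 1) : C2) η‖ := by
        simp only [wd, one_mul]
        have h4 : ‖η.1‖ - ‖z * η.2‖ ≤ ‖z * η.2 - η.1‖ := by
          rw [norm_sub_rev]
          exact norm_sub_norm_le _ _
        have h5 : ‖z * η.2‖ ≤ 1 / 2 := by
          rw [norm_mul]
          calc ‖z‖ * ‖η.2‖ ≤ R' * (1 / (2 * R')) := mul_le_mul (hz z hz') h2 (norm_nonneg _) hR'0.le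
            _ = 1 / 2 := by field_simp
        linarith
      unfold ee
      rw [ENNReal.rpow_one, ← ENNReal.ofReal_inv_of_pos (div_pos (by linarith) (hpos z))]
      apply ENNReal.ofReal_le_ofReal
      rw [inv_div, div_le_iff₀ (by linarith)]
      have := hpt z hz'
      nlinarith
    calc ∫⁻ z in ball (0 : ℂ) R, ee (z, 1) η 1 ≤ ∫⁻ _z in ball (0 : ℂ) R, ENNReal.ofReal (R' * 2) :=
          setLIntegral_mono' measurableSet_ball hb
      _ = ENNReal.ofReal (R' * 2) * volume (ball (0 : ℂ) R) := by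
          rw [setLIntegral_const]
      _ ≤ ENNReal.ofReal (R' * 2) * ENNReal.ofReal A := by gcongr
      _ = ENNReal.ofReal (R' * 2 * A) := by rw [← ENNReal.ofReal_mul (by positivity)]
      _ ≤ _ := by
          apply ENNReal.ofReal_le_ofReal
          have : 0 ≤ R' * (2 * R' * (A + 2 * Real.pi)) := by positivity
          nlinarith
  · rw [not_le] at h2
    have hη2 : η.2 ≠ 0 := by
      rw [← norm_pos_iff]
      exact lt_trans (by positivity) h2
    set a : ℂ := η.1 / η.2 with ha
    have hwd : ∀ z : ℂ, wd ((z, 1) : C2) η = η.2 * (z - a) := by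
      intro z
      simp only [wd, one_mul]
      rw [ha]
      field_simp
    have hb : ∀ z ∈ ball (0 : ℂ) R, ee (z, 1) η 1 ≤
        ENNReal.ofReal (R' * (2 * R')) * (ENNReal.ofReal ‖z - a‖)⁻¹ := by
      intro z hz'
      unfold ee
      rw [ENNReal.rpow_one, hwd, norm_mul]
      have h3 : 1 / (R' * (2 * R')) * ‖z - a‖ ≤ ‖η.2‖ * ‖z - a‖ / ‖((z, 1) : C2)‖ := by
        rw [le_div_iff₀ (hpos z)]
        have h4 := hpt z hz'
        have h5 : 1 / (R' * (2 * R')) * ‖((z, 1) : C2)‖ ≤ ‖η.2‖ := by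
          calc 1 / (R' * (2 * R')) * ‖((z, 1) : C2)‖ ≤ 1 / (R' * (2 * R')) * R' :=
                mul_le_mul_of_nonneg_left h4 (by positivity)
            _ = 1 / (2 * R') := by field_simp
            _ ≤ ‖η.2‖ := h2.le
        calc 1 / (R' * (2 * R')) * ‖z - a‖ * ‖((z, 1) : C2)‖ =
              1 / (R' * (2 * R')) * ‖((z, 1) : C2)‖ * ‖z - a‖ := by ring
          _ ≤ ‖η.2‖ * ‖z - a‖ := mul_le_mul_of_nonneg_right h5 (norm_nonneg _)
      calc (ENNReal.ofReal (‖η.2‖ * ‖z - a‖ / ‖((z, 1) : C2)‖))⁻¹ ≤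
            (ENNReal.ofReal (1 / (R' * (2 * R')) * ‖z - a‖))⁻¹ := by
            rw [ENNReal.inv_le_inv]
            exact ENNReal.ofReal_le_ofReal h3
        _ = ENNReal.ofReal (R' * (2 * R')) * (ENNReal.ofReal ‖z - a‖)⁻¹ := by
            rw [ENNReal.ofReal_mul (by positivity), ENNReal.mul_inv, one_div,
              ENNReal.ofReal_inv_of_pos (by positivity), inv_inv]
            · left
              rw [ne_eq, ENNReal.ofReal_eq_zero, not_le]
              positivity
            · left
              exact ENNReal.ofReal_ne_top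
    have hm : Measurable (fun z : ℂ => (ENNReal.ofReal ‖z - a‖)⁻¹) := by
      apply Measurable.inv
      apply ENNReal.measurable_ofReal.comp
      exact (by fun_prop : Continuous fun z : ℂ => ‖z - a‖).measurable
    have hI : ∫⁻ z in ball (0 : ℂ) R, (ENNReal.ofReal ‖z - a‖)⁻¹ ≤ ENNReal.ofReal (A + 2 * Real.pi) := by
      calc ∫⁻ z in ball (0 : ℂ) R, (ENNReal.ofReal ‖z - a‖)⁻¹
          ≤ ∫⁻ z in ball (0 : ℂ) R, (1 + (ball a 1).indicator (fun z => (ENNReal.ofReal ‖z - a‖)⁻¹) z) := by
            apply lintegral_mono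
            intro z
            by_cases hza : z ∈ ball a 1
            · simp only
              rw [indicator_of_mem hza]
              exact le_add_self
            · simp only
              rw [indicator_of_notMem hza, add_zero, ENNReal.inv_le_one, ← ENNReal.ofReal_one]
              apply ENNReal.ofReal_le_ofReal
              rw [mem_ball, not_lt, dist_eq_norm] at hza
              exact hza
        _ = volume (ball (0 : ℂ) R) +
              ∫⁻ z in ball (0 : ℂ) R, (ball a 1).indicator (fun z => (ENNReal.ofReal ‖z - a‖)⁻¹) z := by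
            rw [lintegral_add_left measurable_const, setLIntegral_one]
        _ ≤ ENNReal.ofReal A + ENNReal.ofReal (2 * Real.pi) := by
            apply add_le_add hvol
            refine (setLIntegral_le_lintegral _ _).trans ?_
            rw [lintegral_indicator measurableSet_ball]
            exact lintegral_inv_ball a
        _ = _ := by rw [← ENNReal.ofReal_add hA0.le (by positivity)]
    calc ∫⁻ z in ball (0 : ℂ) R, ee (z, 1) η 1
        ≤ ∫⁻ z in ball (0 : ℂ) R, ENNReal.ofReal (R' * (2 * R')) * (ENNReal.ofReal ‖z - a‖)⁻¹ :=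
          setLIntegral_mono' measurableSet_ball hb
      _ = ENNReal.ofReal (R' * (2 * R')) * ∫⁻ z in ball (0 : ℂ) R, (ENNReal.ofReal ‖z - a‖)⁻¹ := by
          rw [lintegral_const_mul _ hm]
      _ ≤ ENNReal.ofReal (R' * (2 * R')) * ENNReal.ofReal (A + 2 * Real.pi) := by gcongr
      _ = ENNReal.ofReal (R' * (2 * R') * (A + 2 * Real.pi)) := by
          rw [← ENNReal.ofReal_mul (by positivity)]
      _ ≤ _ := by
          apply ENNReal.ofReal_le_ofReal
          have : 0 ≤ R' * (2 * A) := by positivity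
          nlinarith

end Pool.Agent.Helper56.Equi
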