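import Mathlib
import Pool.Agent.Helper56.Equi.C

/-! Equidistribution, part D: `equi_L1` and `mixing_of_ntr`. -/

open Complex Metric Set Filter Topology InnerProductSpace MeasureTheory
open scoped ENNReal

namespace Pool.Agent.Helper56.Equi

open Pool.Agent.Helper65

lemma green_iterate {d : ℕ} {f : C2 → C2} (hf : IsLift d f) {G : C2 → ℝ}
    (hGf : ∀ v, v ≠ 0 → G (f v) = d * G v) (n : ℕ) {v : C2} (hv : v ≠ 0) :
    G (f^[n] v) = (d : ℝ) ^ n * G v := by
  induction n with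
  | zero => simp
  | succ n ih =>
    rw [Function.iterate_succ_apply', hGf _ (iterate_nz hf.nz n v hv), ih, pow_succ]
    ring

lemma tendsto_bound {d : ℕ} (hd : 2 ≤ d) (A B L L' : ℝ) :
    Tendsto (fun n : ℕ => A * (1 / (d : ℝ)) ^ n + B * (n * (((d - 1 : ℕ) : ℝ) / d) ^ n) +
      L * (((d - 1 : ℕ) : ℝ) / d) ^ n + L' * (((d - 1 : ℕ) : ℝ) / d) ^ n) atTop (𝓝 0) := by
  have hd0 : (0 : ℝ) < d := by positivity
  have hd1 : (1 : ℝ) < d := by
    have : 1 < d := by omega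
    exact_mod_cast this
  have hq : (((d - 1 : ℕ) : ℝ) / d) < 1 := by
    rw [div_lt_one hd0]
    have : d - 1 < d := by omega
    exact_mod_cast this
  have hq0 : 0 ≤ (((d - 1 : ℕ) : ℝ) / d) := by positivity
  have h1 : Tendsto (fun n : ℕ => (1 / (d : ℝ)) ^ n) atTop (𝓝 0) :=
    tendsto_pow_atTop_nhds_zero_of_lt_one (by positivity) (by rw [div_lt_one hd0]; exact hd1)
  have h2 : Tendsto (fun n : ℕ => (((d - 1 : ℕ) : ℝ) / d) ^ n) atTop (𝓝 0) :=
    tendsto_pow_atTop_nhds_zero_of_lt_one hq0 hq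
  have h3 : Tendsto (fun n : ℕ => (n : ℝ) * (((d - 1 : ℕ) : ℝ) / d) ^ n) atTop (𝓝 0) :=
    tendsto_self_mul_const_pow_of_lt_one hq0 hq
  have := (((h1.const_mul A).add (h3.const_mul B)).add (h2.const_mul L)).add (h2.const_mul L')
  simpa using this

/-- E1 -/
theorem equi_L1 {d : ℕ} (hd : 2 ≤ d) {f : C2 → C2} (hf : IsLift d f) {G : C2 → ℝ}
    (hG : IsGreen G) (hGf : ∀ v, v ≠ 0 → G (f v) = d * G v) {Ξ : Set C2} (hΞ : BackInv f Ξ)
    (hN : NTR d f Ξ) (R : ℝ) {ε : ℝ} (hε : 0 < ε) :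
    ∃ n0 : ℕ, ∀ n ≥ n0, ∀ ξ ∈ Ξ, ‖ξ‖ = 1 →
      ∫⁻ z in ball (0 : ℂ) R, ENNReal.ofReal
        |gu G z - (1 / (d : ℝ) ^ n) * Real.log ‖wd (f^[n] (z, 1)) ξ‖| ≤ ENNReal.ofReal ε := by
  obtain ⟨K, hK1, hmom⟩ := moments hd hf hΞ hN
  obtain ⟨C0, hC01, hC0⟩ := initial_moment R
  obtain ⟨C, hC, hGC⟩ := hG.bound
  have hd0 : (0 : ℝ) < d := by positivity
  have hdm : (0 : ℝ) < ((d - 1 : ℕ) : ℝ) := by
    have : 0 < d - 1 := by omega
    exact_mod_cast this
  set A : ℝ := (volume (ball (0 : ℂ) R)).toReal with hA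
  have hfin : volume (ball (0 : ℂ) R) ≠ ⊤ := measure_ball_lt_top.ne
  have hA0 : 0 ≤ A := ENNReal.toReal_nonneg
  have hl2 : 0 ≤ Real.log 2 := Real.log_nonneg (by norm_num)
  have hlK : 0 ≤ Real.log K := Real.log_nonneg hK1
  have hlC : 0 ≤ Real.log C0 := Real.log_nonneg hC01
  have ht := tendsto_bound hd ((C + Real.log 2) * A) (Real.log K * A) (Real.log C0 * A) 1
  have he := ht.eventually (eventually_le_nhds hε)
  rw [eventually_atTop] at he
  obtain ⟨n0, hn0⟩ := he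
  refine ⟨n0, fun n hn ξ hξ hξ1 => ?_⟩
  have hbd := hn0 n hn
  set N : ℝ := (d : ℝ) ^ n with hNdef
  have hN0 : 0 < N := by positivity
  set s : ℝ := 1 / ((d - 1 : ℕ) : ℝ) ^ n with hs
  have hs0 : 0 < s := by positivity
  set M : ℝ := K ^ n * C0 with hM
  have hKn : 1 ≤ K ^ n := one_le_pow₀ hK1
  have hM1 : 1 ≤ M := by
    rw [hM]
    nlinarith
  have hM0 : 0 < M := by linarith
  have hlM : Real.log M = n * Real.log K + Real.log C0 := by
    rw [hM, Real.log_mul (by positivity) (by positivity), Real.log_pow]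
  have h1s : 1 / s = ((d - 1 : ℕ) : ℝ) ^ n := by rw [hs, one_div_one_div]
  -- pointwise
  have hpw : ∀ z : ℂ, ENNReal.ofReal |gu G z - (1 / N) * Real.log ‖wd (f^[n] (z, 1)) ξ‖| ≤
      ENNReal.ofReal ((C + Real.log 2 + (1 / s) * Real.log M) / N) +
        ENNReal.ofReal (1 / (N * s * M)) * ee (f^[n] (z, 1)) ξ s := by
    intro z
    have hv : f^[n] ((z, 1) : C2) ≠ 0 := iterate_nz hf.nz n _ (pt_ne_zero z)
    apply point_bound hv hξ1 hs0 hM1 hN0 hC
    have h1 := hGC _ hv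
    rw [green_iterate hf hGf n (pt_ne_zero z)] at h1
    have h2 : gu G z - 1 / N * Real.log ‖f^[n] ((z, 1) : C2)‖ =
        (1 / N) * (N * G (z, 1) - Real.log ‖f^[n] ((z, 1) : C2)‖) := by
      unfold gu
      field_simp
    rw [h2, abs_mul, abs_of_pos (by positivity : 0 < 1 / N), one_div_mul_eq_div]
    exact div_le_div_of_nonneg_right h1 hN0.le
  calc ∫⁻ z in ball (0 : ℂ) R, ENNReal.ofReal |gu G z - (1 / N) * Real.log ‖wd (f^[n] (z, 1)) ξ‖|
      ≤ ∫⁻ z in ball (0 : ℂ) R, (ENNReal.ofReal ((C + Real.log 2 + (1 / s) * Real.log M) / N) +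
        ENNReal.ofReal (1 / (N * s * M)) * ee (f^[n] (z, 1)) ξ s) := lintegral_mono fun z => hpw z
    _ = ENNReal.ofReal ((C + Real.log 2 + (1 / s) * Real.log M) / N) * volume (ball (0 : ℂ) R) +
        ENNReal.ofReal (1 / (N * s * M)) * ∫⁻ z in ball (0 : ℂ) R, ee (f^[n] (z, 1)) ξ s := by
        have hfc : Continuous (fun z : ℂ => f^[n] (z, 1)) :=
          (hf.diff.continuous.iterate n).comp (by fun_prop)
        rw [lintegral_add_left measurable_const, setLIntegral_const, lintegral_const_mul _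
          (measurable_ee hfc ξ s)]
    _ ≤ ENNReal.ofReal ((C + Real.log 2 + (1 / s) * Real.log M) / N) * ENNReal.ofReal A +
        ENNReal.ofReal (1 / (N * s * M)) * ENNReal.ofReal M := by
        apply add_le_add
        · rw [hA, ENNReal.ofReal_toReal hfin]
        · apply mul_le_mul_right
          refine (hmom _ _ hC0 n ξ hξ hξ1).trans ?_
          rw [← ENNReal.ofReal_mul (by positivity)]
    _ = ENNReal.ofReal (((C + Real.log 2 + (1 / s) * Real.log M) / N) * A + 1 / (N * s * M) * M) := by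
        have hlM0 : 0 ≤ Real.log M := Real.log_nonneg hM1
        rw [← ENNReal.ofReal_mul (by positivity), ← ENNReal.ofReal_mul (by positivity),
          ← ENNReal.ofReal_add (by positivity) (by positivity)]
    _ ≤ ENNReal.ofReal ε := by
        apply ENNReal.ofReal_le_ofReal
        refine le_trans (le_of_eq ?_) hbd
        rw [hlM, h1s]
        have e1 : 1 / (N * s * M) * M = ((d - 1 : ℕ) : ℝ) ^ n / N := by
          rw [hs]
          field_simp
        rw [e1, hNdef, div_pow, div_pow, one_pow]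
        field_simp
        ring

lemma gu_continuous {G : C2 → ℝ} (hG : IsGreen G) : Continuous (gu G) := by
  unfold gu
  exact hG.cont.comp_continuous (by fun_prop) (fun z => pt_ne_zero z)

lemma analyticAt_comp_pt {f : C2 → C2} (hf : Differentiable ℂ f) (z : ℂ) :
    AnalyticAt ℂ (fun z : ℂ => f (z, 1)) z := by
  have h1 : Differentiable ℂ (fun z : ℂ => f (z, 1)) := hf.comp (by fun_prop)
  exact h1.analyticAt z

/-- E2 -/
theorem mixing_of_ntr {d : ℕ} (hd : 2 ≤ d) {f : C2 → C2} (hf : IsLift d f) {G : C2 → ℝ}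
    (hG : IsGreen G) (hGf : ∀ v, v ≠ 0 → G (f v) = d * G v) {Ξ : Set C2} (hΞ : BackInv f Ξ)
    (hN : NTR d f Ξ) : Mixing G f Ξ := by
  intro z r hr hnh
  by_contra hcon
  push Not at hcon
  apply hnh
  apply Harm.harmonic_of_L1 (gu_continuous hG).continuousOn
  intro ε hε
  obtain ⟨n0, hn0⟩ := equi_L1 hd hf hG hGf hΞ hN (‖z‖ + r) hε
  obtain ⟨n, hn, ξ, hξ, hξ0, hne⟩ := hcon n0
  have hξn : 0 < ‖ξ‖ := norm_pos_iff.mpr hξ0
  set ξ' : C2 := ((‖ξ‖ : ℂ)⁻¹) • ξ with hξ'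
  have hξ'1 : ‖ξ'‖ = 1 := by
    rw [hξ', norm_smul, norm_inv, Complex.norm_real, norm_norm, inv_mul_cancel₀ hξn.ne']
  have hne' : ∀ z' ∈ ball z r, wd (f^[n] (z', 1)) ξ' ≠ 0 := by
    intro z' hz'
    rw [hξ', wd_smul_right]
    apply mul_ne_zero _ (hne z' hz')
    apply inv_ne_zero
    exact_mod_cast hξn.ne'
  refine ⟨fun z' => (1 / (d : ℝ) ^ n) • Real.log ‖wd (f^[n] (z', 1)) ξ'‖, ?_, ?_⟩
  · intro z' hz'
    apply HarmonicAt.const_smul
    apply AnalyticAt.harmonicAt_log_norm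
    · exact analyticAt_wd (analyticAt_comp_pt (isLift_iterate hf n).diff z') analyticAt_const
    · exact hne' z' hz'
  · refine le_trans (lintegral_mono_set ?_) (hn0 n hn ξ' (hΞ.cone _ _ hξ) hξ'1)
    apply ball_subset_ball'
    rw [dist_zero_right]
    linarith

end Pool.Agent.Helper56.Equi
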