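import Mathlib
import Pool.Agent.Helper56.Equi.D

/-! Equidistribution, part E: equality of Green functions. -/

open Complex Metric Set Filter Topology InnerProductSpace MeasureTheory
open scoped ENNReal

namespace Pool.Agent.Helper56.Equi

open Pool.Agent.Helper65

lemma finite_zeros {d : ℕ} {f : C2 → C2} (hf : IsLift d f) {ξ : C2} (hξ : ξ ≠ 0) :
    {z : ℂ | wd (f (z, 1)) ξ = 0}.Finite := by
  obtain ⟨κ, η, hκ, hη, h⟩ := hf.fac ξ hξ
  apply Set.Finite.subset (s := Set.range fun i => (η i).1 / (η i).2)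
  · exact Set.finite_range _
  · intro z hz
    rw [Set.mem_ofPred_eq, h, mul_eq_zero] at hz
    rcases hz with hz | hz
    · exact absurd hz hκ
    · rw [Finset.prod_eq_zero_iff] at hz
      obtain ⟨i, -, hi⟩ := hz
      refine ⟨i, ?_⟩
      simp only [wd, one_mul] at hi
      have h2 : (η i).2 ≠ 0 := by
        intro h2
        rw [h2, mul_zero, zero_sub, neg_eq_zero] at hi
        have := hη i
        rw [Prod.norm_def, h2, hi] at this
        simp at this
      simp only
      rw [div_eq_iff h2]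
      linear_combination -hi

lemma measurable_term {f : C2 → C2} (hf : Continuous f) {g : ℂ → ℝ} (hg : Continuous g) (η : C2)
    (c : ℝ) : Measurable (fun z : ℂ => ENNReal.ofReal |g z - c * Real.log ‖wd (f (z, 1)) η‖|) := by
  apply ENNReal.measurable_ofReal.comp
  apply Measurable.abs
  apply hg.measurable.sub
  apply Measurable.const_mul
  apply Real.measurable_log.comp
  apply Continuous.measurable
  unfold wd
  fun_prop

lemma avg_estimate {a : ℕ} (ha : 2 ≤ a) {A : C2 → C2}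
    (hA : IsLift a A) {GA : C2 → ℝ} (hGA : IsGreen GA)
    (hGAi : ∀ v, v ≠ 0 → GA (A v) = a * GA v)
    (hNA : NTR a A univ) (R : ℝ) {ε : ℝ} (hε : 0 < ε) :
    ∃ n0 : ℕ, ∀ n ≥ n0, ∀ (x : ℕ) (X : C2 → C2), 1 ≤ x → IsLift x X → ∃ k : ℝ,
      ∫⁻ z in ball (0 : ℂ) R, ENNReal.ofReal
        |gu GA z - (1 / ((x * a ^ n : ℕ) : ℝ)) * Real.log ‖wd (X (A^[n] (z, 1))) (0, 1)‖ - k| ≤
        ENNReal.ofReal ε := by
  have hBI : BackInv A univ := ⟨isClosed_univ, fun _ _ _ => mem_univ _, fun _ _ _ _ _ _ => mem_univ _⟩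
  obtain ⟨n0, hn0⟩ := equi_L1 ha hA hGA hGAi hBI hNA R hε
  refine ⟨n0, fun n hn x X hx hX => ?_⟩
  have hξ0 : ((0, 1) : C2) ≠ 0 := by
    intro h
    exact one_ne_zero (congrArg Prod.snd h)
  obtain ⟨κ, η, hκ, hη, hfac⟩ := hX.fac (0, 1) hξ0
  have hx0 : (0 : ℝ) < x := by exact_mod_cast hx
  have ha0 : (0 : ℝ) < a := by
    have : 0 < a := by omega
    exact_mod_cast this
  set N : ℝ := (a : ℝ) ^ n with hN
  have hN0 : 0 < N := by positivity
  refine ⟨-((1 / ((x * a ^ n : ℕ) : ℝ)) * Real.log ‖κ‖), ?_⟩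
  have hlift := isLift_comp hX (isLift_iterate hA n)
  have hZ := finite_zeros hlift hξ0
  have hae : ∀ᵐ z ∂(volume.restrict (ball (0 : ℂ) R)), ENNReal.ofReal
        |gu GA z - (1 / ((x * a ^ n : ℕ) : ℝ)) * Real.log ‖wd (X (A^[n] (z, 1))) (0, 1)‖ -
          -((1 / ((x * a ^ n : ℕ) : ℝ)) * Real.log ‖κ‖)| ≤
        ENNReal.ofReal (1 / x) * ∑ j, ENNReal.ofReal
          |gu GA z - (1 / N) * Real.log ‖wd (A^[n] (z, 1)) (η j)‖| := by
    apply ae_restrict_of_ae
    have h1 : ∀ᵐ z : ℂ, z ∉ {z : ℂ | wd (X (A^[n] (z, 1))) (0, 1) = 0} :=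
      measure_eq_zero_iff_ae_notMem.mp (hZ.measure_zero _)
    filter_upwards [h1] with z hz
    have hz' : wd (X (A^[n] (z, 1))) (0, 1) ≠ 0 := hz
    have hnz : ∀ j, ‖wd (A^[n] (z, 1)) (η j)‖ ≠ 0 := by
      intro j hj
      apply hz'
      rw [hfac]
      apply mul_eq_zero_of_right
      exact Finset.prod_eq_zero (Finset.mem_univ j) (norm_eq_zero.mp hj)
    have hlog : Real.log ‖wd (X (A^[n] (z, 1))) (0, 1)‖ =
        Real.log ‖κ‖ + ∑ j, Real.log ‖wd (A^[n] (z, 1)) (η j)‖ := by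
      rw [hfac, norm_mul, norm_prod, Real.log_mul (norm_ne_zero_iff.mpr hκ)
        (Finset.prod_ne_zero_iff.mpr fun j _ => hnz j), Real.log_prod (fun j _ => hnz j)]
    have e : gu GA z - (1 / ((x * a ^ n : ℕ) : ℝ)) * Real.log ‖wd (X (A^[n] (z, 1))) (0, 1)‖ -
          -((1 / ((x * a ^ n : ℕ) : ℝ)) * Real.log ‖κ‖) =
        (1 / x) * ∑ j, (gu GA z - (1 / N) * Real.log ‖wd (A^[n] (z, 1)) (η j)‖) := by
      rw [hlog, Finset.sum_sub_distrib, Finset.sum_const, Finset.card_univ, Fintype.card_fin,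
        nsmul_eq_mul, ← Finset.mul_sum]
      push_cast
      rw [← hN]
      field_simp
      ring
    rw [e, abs_mul, abs_of_pos (by positivity : (0 : ℝ) < 1 / x), ENNReal.ofReal_mul (by positivity),
      ← ENNReal.ofReal_sum_of_nonneg (fun j _ => abs_nonneg _)]
    apply mul_le_mul_right
    exact ENNReal.ofReal_le_ofReal (Finset.abs_sum_le_sum_abs _ _)
  have hAc : Continuous (A^[n]) := hA.diff.continuous.iterate n
  have hmeas : ∀ j, Measurable (fun z : ℂ => ENNReal.ofReal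
      |gu GA z - (1 / N) * Real.log ‖wd (A^[n] (z, 1)) (η j)‖|) := fun j =>
    measurable_term hAc (gu_continuous hGA) _ _
  refine (lintegral_mono_ae hae).trans ?_
  rw [lintegral_const_mul _ (Finset.measurable_fun_sum _ fun j _ => hmeas j),
    lintegral_finsetSum _ fun j _ => hmeas j]
  calc ENNReal.ofReal (1 / x) * ∑ j, ∫⁻ z in ball (0 : ℂ) R, ENNReal.ofReal
          |gu GA z - (1 / N) * Real.log ‖wd (A^[n] (z, 1)) (η j)‖|
      ≤ ENNReal.ofReal (1 / x) * ∑ _j : Fin x, ENNReal.ofReal ε := by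
        apply mul_le_mul_right
        exact Finset.sum_le_sum fun j _ => hn0 n hn (η j) (mem_univ _) (hη j)
    _ = ENNReal.ofReal ε := by
        rw [Finset.sum_const, Finset.card_univ, Fintype.card_fin, nsmul_eq_mul, ← mul_assoc,
          ← ENNReal.ofReal_natCast x, ← ENNReal.ofReal_mul (by positivity),
          one_div_mul_cancel hx0.ne', ENNReal.ofReal_one, one_mul]

lemma const_of_L1 {F : ℂ → ℝ} (hF : Continuous F)
    (h : ∀ R : ℝ, ∀ ε > (0 : ℝ), ∃ c : ℝ,
      ∫⁻ z in ball (0 : ℂ) R, ENNReal.ofReal |F z - c| ≤ ENNReal.ofReal ε) :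
    ∀ z1 z2, F z1 = F z2 := by
  intro z1 z2
  by_contra hne
  set t := |F z1 - F z2| / 4 with ht
  have ht0 : 0 < t := by
    have : 0 < |F z1 - F z2| := abs_pos.mpr (sub_ne_zero.mpr hne)
    positivity
  obtain ⟨s1, hs1, h1⟩ := Metric.continuous_iff.mp hF z1 t ht0
  obtain ⟨s2, hs2, h2⟩ := Metric.continuous_iff.mp hF z2 t ht0
  set s := min s1 s2 with hs
  have hs0 : 0 < s := lt_min hs1 hs2
  set R := ‖z1‖ + ‖z2‖ + s with hR
  have hvol : ∀ z : ℂ, volume (ball z s) = ENNReal.ofReal (Real.pi * s ^ 2) := by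
    intro z
    rw [Complex.volume_ball, mul_comm Real.pi, ENNReal.ofReal_mul (by positivity),
      ENNReal.ofReal_pow hs0.le]
    congr 1
    rw [← NNReal.coe_real_pi, ENNReal.ofReal_coe_nnreal]
  obtain ⟨c, hc⟩ := h R (t * (Real.pi * s ^ 2) / 2) (by positivity)
  have key : ∀ z : ℂ, ball z s ⊆ ball 0 R → (∀ w, dist w z < s → dist (F w) (F z) < t) →
      2 * t ≤ |F z - c| → False := by
    intro z hzR hz hzc
    have h3 : ∫⁻ _w in ball z s, ENNReal.ofReal t ≤ ∫⁻ w in ball z s, ENNReal.ofReal |F w - c| := by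
      apply setLIntegral_mono' measurableSet_ball
      intro w hw
      apply ENNReal.ofReal_le_ofReal
      have h4 := hz w hw
      rw [Real.dist_eq] at h4
      have h5 : |F z - c| ≤ |F w - F z| + |F w - c| := by
        have : F z - c = -(F w - F z) + (F w - c) := by ring
        rw [this]
        refine (abs_add_le _ _).trans ?_
        rw [abs_neg]
      linarith
    rw [setLIntegral_const, hvol, ← ENNReal.ofReal_mul ht0.le] at h3
    have h6 := h3.trans ((lintegral_mono_set hzR).trans hc)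
    rw [ENNReal.ofReal_le_ofReal_iff (by positivity)] at h6
    have : 0 < t * (Real.pi * s ^ 2) := by positivity
    linarith
  have hsub : ∀ z : ℂ, ‖z‖ ≤ ‖z1‖ + ‖z2‖ → ball z s ⊆ ball (0 : ℂ) R := by
    intro z hz
    apply ball_subset_ball'
    rw [dist_zero_right]
    linarith
  have h7 : 4 * t ≤ |F z1 - c| + |F z2 - c| := by
    have e : F z1 - F z2 = (F z1 - c) - (F z2 - c) := by ring
    have : |F z1 - F z2| ≤ |F z1 - c| + |F z2 - c| := by
      rw [e]; exact abs_sub _ _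
    rw [ht]
    linarith
  by_cases h8 : 2 * t ≤ |F z1 - c|
  · exact key z1 (hsub z1 (by linarith [norm_nonneg z2])) (fun w hw => h1 w (lt_of_lt_of_le hw
      (min_le_left _ _))) h8
  · exact key z2 (hsub z2 (by linarith [norm_nonneg z1])) (fun w hw => h2 w (lt_of_lt_of_le hw
      (min_le_right _ _))) (by linarith)

/-- E3 -/
theorem green_eq_of_common {a b : ℕ} (ha : 2 ≤ a) (hb : 2 ≤ b) {A B : C2 → C2}
    (hA : IsLift a A) (hB : IsLift b B) {GA GB : C2 → ℝ} (hGA : IsGreen GA) (hGB : IsGreen GB)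
    (hGAi : ∀ v, v ≠ 0 → GA (A v) = a * GA v) (hGBi : ∀ v, v ≠ 0 → GB (B v) = b * GB v)
    (hNA : NTR a A univ) (hNB : NTR b B univ)
    (h : ∀ n : ℕ, ∃ (x y : ℕ) (X Y : C2 → C2), 1 ≤ x ∧ 1 ≤ y ∧ IsLift x X ∧ IsLift y Y ∧
      ∀ v, X (A^[n] v) = Y (B^[n] v)) :
    ∃ c : ℝ, ∀ v, v ≠ 0 → GA v = GB v + c := by
  have hF : Continuous (fun z => gu GA z - gu GB z) := (gu_continuous hGA).sub (gu_continuous hGB)
  have hconst := const_of_L1 hF (by
    intro R ε hε
    obtain ⟨n1, hn1⟩ := avg_estimate ha hA hGA hGAi hNA R (show 0 < ε / 2 by positivity)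
    obtain ⟨n2, hn2⟩ := avg_estimate hb hB hGB hGBi hNB R (show 0 < ε / 2 by positivity)
    set n := max n1 n2 with hn
    obtain ⟨x, y, X, Y, hx, hy, hX, hY, hXY⟩ := h n
    obtain ⟨k1, hk1⟩ := hn1 n (le_max_left _ _) x X hx hX
    obtain ⟨k2, hk2⟩ := hn2 n (le_max_right _ _) y Y hy hY
    -- equality of degrees
    have hdeg : x * a ^ n = y * b ^ n := by
      have hl1 := isLift_comp hX (isLift_iterate hA n)
      have hl2 := isLift_comp hY (isLift_iterate hB n)
      have hv0 : ((0, 1) : C2) ≠ 0 := by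
        intro h
        exact one_ne_zero (congrArg Prod.snd h)
      have e1 := hl1.hom 2 (0, 1)
      have e2 := hl2.hom 2 (0, 1)
      have e3 := hXY ((2 : ℂ) • (0, 1))
      have e4 := hXY (0, 1)
      have hnz := hl1.nz _ hv0
      have e5 : (2 : ℂ) ^ (x * a ^ n) • X (A^[n] (0, 1)) = (2 : ℂ) ^ (y * b ^ n) • X (A^[n] (0, 1)) := by
        rw [← e1, e3, e2, e4]
      have e6 : ((2 : ℂ) ^ (x * a ^ n)) = (2 : ℂ) ^ (y * b ^ n) := smul_left_injective ℂ hnz e5
      have e7 : ((2 : ℕ) : ℂ) ^ (x * a ^ n) = ((2 : ℕ) : ℂ) ^ (y * b ^ n) := by exact_mod_cast e6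
      have e8 : (2 : ℕ) ^ (x * a ^ n) = 2 ^ (y * b ^ n) := by exact_mod_cast e7
      exact Nat.pow_right_injective le_rfl e8
    refine ⟨k1 - k2, ?_⟩
    have hpw : ∀ z : ℂ, ENNReal.ofReal |gu GA z - gu GB z - (k1 - k2)| ≤
        ENNReal.ofReal |gu GA z - (1 / ((x * a ^ n : ℕ) : ℝ)) *
          Real.log ‖wd (X (A^[n] (z, 1))) (0, 1)‖ - k1| +
        ENNReal.ofReal |gu GB z - (1 / ((y * b ^ n : ℕ) : ℝ)) *
          Real.log ‖wd (Y (B^[n] (z, 1))) (0, 1)‖ - k2| := by
      intro z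
      rw [← ENNReal.ofReal_add (abs_nonneg _) (abs_nonneg _)]
      apply ENNReal.ofReal_le_ofReal
      rw [hXY, hdeg]
      have e : gu GA z - gu GB z - (k1 - k2) =
          (gu GA z - (1 / ((y * b ^ n : ℕ) : ℝ)) * Real.log ‖wd (Y (B^[n] (z, 1))) (0, 1)‖ - k1) -
          (gu GB z - (1 / ((y * b ^ n : ℕ) : ℝ)) * Real.log ‖wd (Y (B^[n] (z, 1))) (0, 1)‖ - k2) := by
        ring
      rw [e]
      exact abs_sub _ _
    refine (lintegral_mono fun z => hpw z).trans ?_
    have hm : Measurable (fun z : ℂ => ENNReal.ofReal |gu GA z - (1 / ((x * a ^ n : ℕ) : ℝ)) *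
          Real.log ‖wd (X (A^[n] (z, 1))) (0, 1)‖ - k1|) := by
      apply ENNReal.measurable_ofReal.comp
      apply Measurable.abs
      apply Measurable.sub_const
      apply (gu_continuous hGA).measurable.sub
      apply Measurable.const_mul
      apply Real.measurable_log.comp
      apply Continuous.measurable
      have h1 : Continuous (fun z : ℂ => X (A^[n] (z, 1))) :=
        hX.diff.continuous.comp ((hA.diff.continuous.iterate n).comp (by fun_prop))
      have h2 : Continuous (fun z : ℂ => (X (A^[n] (z, 1))).1) := continuous_fst.comp h1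
      have h3 : Continuous (fun z : ℂ => (X (A^[n] (z, 1))).2) := continuous_snd.comp h1
      unfold wd
      exact ((h2.mul continuous_const).sub (h3.mul continuous_const)).norm
    rw [lintegral_add_left hm]
    calc _ ≤ ENNReal.ofReal (ε / 2) + ENNReal.ofReal (ε / 2) := add_le_add hk1 hk2
      _ = ENNReal.ofReal ε := by
        rw [← ENNReal.ofReal_add (by positivity) (by positivity)]
        congr 1
        ring)
  set c := gu GA 0 - gu GB 0 with hc
  have hfin : ∀ v : C2, v.2 ≠ 0 → GA v - GB v = c := by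
    intro v hv
    have e : v = v.2 • ((v.1 / v.2, 1) : C2) := by
      ext
      · simp only [Prod.smul_fst, smul_eq_mul]
        field_simp
      · simp
    rw [e, hGA.hom _ _ hv (pt_ne_zero _), hGB.hom _ _ hv (pt_ne_zero _)]
    have := hconst (v.1 / v.2) 0
    unfold gu at this hc
    rw [hc]
    linarith
  refine ⟨c, fun v hv => ?_⟩
  by_cases hv2 : v.2 = 0
  · have hv1 : v.1 ≠ 0 := by
      rcases fst_or_snd hv with h | h
      · exact h
      · exact absurd hv2 h
    have hopen : IsOpen ({0}ᶜ : Set C2) := isOpen_compl_singleton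
    have hcA : ContinuousAt GA v := hGA.cont.continuousAt (hopen.mem_nhds hv)
    have hcB : ContinuousAt GB v := hGB.cont.continuousAt (hopen.mem_nhds hv)
    have hcD : ContinuousAt (fun w => GA w - GB w) v := hcA.sub hcB
    have hpath : Tendsto (fun t : ℂ => ((v.1, t) : C2)) (𝓝[≠] 0) (𝓝 v) := by
      have h1 : Continuous (fun t : ℂ => ((v.1, t) : C2)) := by fun_prop
      have h2 := h1.tendsto 0
      have h3 : ((v.1, 0) : C2) = v := by
        ext
        · rfl
        · exact hv2.symm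
      rw [h3] at h2
      exact h2.mono_left nhdsWithin_le_nhds
    have h3 := hcD.tendsto.comp hpath
    have h4 : Tendsto ((fun w => GA w - GB w) ∘ fun t : ℂ => ((v.1, t) : C2)) (𝓝[≠] 0) (𝓝 c) := by
      apply tendsto_const_nhds.congr'
      filter_upwards [self_mem_nhdsWithin] with t ht
      simp only [Function.comp_apply]
      exact (hfin (v.1, t) ht).symm
    have := tendsto_nhds_unique h3 h4
    linarith
  · linarith [hfin v hv2]

end Pool.Agent.Helper56.Equi
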